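import Pool.Agent.ShghI.Dens4
import Pool.Agent.ShghI.MainT
import Pool.Agent.ShghJ.Tr

/-!
# The conjecture holds for almost all multiplicity vectors, in every degree

`P 0, ..., P (s - 1)` are points of the affine plane over a field `k` of characteristic `0` whose
`2 s` coordinates are algebraically independent over the prime field. We consider curves of degree
`δ` with multiplicities `≥ μ i` at `P i`, that is, the divisor class `D = δ H - Σ μ_i E_i` on the
blow-up.
-/

namespace Pool.Agent.Results.MP_0dccba_ag.AlmostAllVectors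

open MvPolynomial Filter

universe u

/-- `H⁰(X, D)`: the polynomials of degree `≤ δ` with multiplicity `≥ μ i` at the point `P i`. -/
def sections {k : Type*} [Field k] {s : ℕ} (P : Fin s → Fin 2 → k) (δ : ℕ) (μ : Fin s → ℕ) :
    Submodule k (MvPolynomial (Fin 2) k) where
  carrier := {f | f.totalDegree ≤ δ ∧ ∀ i, f ∈ (Ideal.span {X 0 - C (P i 0), X 1 - C (P i 1)} :
    Ideal (MvPolynomial (Fin 2) k)) ^ μ i}
  add_mem' := fun {f g} hf hg => ⟨(totalDegree_add f g).trans (max_le hf.1 hg.1),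
    fun i => Ideal.add_mem _ (hf.2 i) (hg.2 i)⟩
  zero_mem' := ⟨by simp, fun i => Ideal.zero_mem _⟩
  smul_mem' := fun c f hf => ⟨(totalDegree_smul_le c f).trans hf.1, fun i => by
    rw [smul_eq_C_mul]
    exact Ideal.mul_mem_left _ _ (hf.2 i)⟩

/-- The Euler characteristic `χ(D) = (δ + 1)(δ + 2) / 2 - Σ μ_i (μ_i + 1) / 2`. -/
def chi {s : ℕ} (δ : ℕ) (μ : Fin s → ℕ) : ℤ :=
  ((δ + 2).choose 2 : ℤ) - ∑ i, ((μ i + 1).choose 2 : ℤ)

/-- The vector `S = {m_1, ..., m_s}` of multiplicities is good if for every field of characteristic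
`0`, all generic points with these multiplicities and every degree `δ` we have
`h⁰(D) = max (0, χ(D))`. -/
def Good (S : Multiset ℕ) : Prop :=
  ∀ (k : Type u) [Field k] [CharZero k] (s : ℕ) (P : Fin s → Fin 2 → k) (μ : Fin s → ℕ),
    AlgebraicIndependent (⊥ : Subfield k) (fun ij : Fin s × Fin 2 => P ij.1 ij.2) →
    Finset.univ.val.map μ = S →
    ∀ δ : ℕ, (Module.finrank k (sections P δ μ) : ℤ) = max 0 (chi δ μ)

/-- The class `D` of degree `δ` with the multiplicities `S = {m_1, ..., m_s}` is non-special,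
`h⁰(D) = χ(D)` (and so `χ(D) ≥ 0` and `h¹(D) = 0`), for every field of characteristic `0` and all
generic points. -/
def NonSpecial (δ : ℕ) (S : Multiset ℕ) : Prop :=
  ∀ (k : Type u) [Field k] [CharZero k] (s : ℕ) (P : Fin s → Fin 2 → k) (μ : Fin s → ℕ),
    AlgebraicIndependent (⊥ : Subfield k) (fun ij : Fin s × Fin 2 => P ij.1 ij.2) →
    Finset.univ.val.map μ = S →
    (Module.finrank k (sections P δ μ) : ℤ) = chi δ μ

/-- The vectors `S = {m_1, ..., m_s}` (any `s`, all `m_i ≥ 1`, up to permutation) with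
`Σ m_i (m_i + 1) / 2 ≤ N`. -/
def vectors (N : ℕ) : Set (Multiset ℕ) :=
  {S | 0 ∉ S ∧ (S.map fun m => (m + 1).choose 2).sum ≤ N}

theorem T_eq (m : ℕ) : ShghJ.T m = (m + 1).choose 2 := by
  rw [Nat.choose_two_right, Nat.add_sub_cancel, ShghJ.T, mul_comm]

theorem vectors_eq (N : ℕ) : vectors N = (ShghI.AF N : Set (Multiset ℕ)) := by
  ext S
  rw [Finset.mem_coe, ShghI.mem_AF]
  have h1 : (S.map fun m => (m + 1).choose 2).sum = ShghJ.TT S := by
    rw [ShghJ.TT]
    congr 1
    exact Multiset.map_congr rfl fun m _ => (T_eq m).symm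
  show (0 ∉ S ∧ (S.map fun m => (m + 1).choose 2).sum ≤ N) ↔ _
  rw [h1]
  refine and_congr_left fun _ => ⟨fun h x hx => ?_, fun h h0 => ?_⟩
  · exact Nat.one_le_iff_ne_zero.2 fun hx0 => h (hx0 ▸ hx)
  · have := h 0 h0
    omega

theorem good_of {S : Multiset ℕ}
    (hS : ∀ m ∈ S, 2 ≤ m → 255 * m ^ 2 ≤ ShghJ.TT (S.filter (fun x => x < m))) :
    Good.{u} S := by
  intro k _ _ s P μ hP hμ δ
  have h1 : Module.finrank k (sections P δ μ) = ShghJ.hF (⊥ : Subfield k) δ S := by
    rw [← hμ]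
    exact ShghJ.finrank_LS_eq_hF δ μ P hP
  have h2 : chi δ μ = (ShghJ.T (δ + 1) : ℤ) - ShghJ.TT S := by
    rw [← hμ]
    exact ShghJ.tr_chi δ μ
  have h3 := ShghI.hF_case2 (⊥ : Subfield k) δ
    (fun n hn _ => Nat.cast_ne_zero.2 (show n ≠ 0 by omega)) 0 0 S (by simp) (Or.inr (by
      intro m hm h2
      have h3 := hS m hm h2
      have h4 : (255 : ℤ) * (m : ℤ) ^ 2 ≤ ShghJ.TT (S.filter (fun j => j < m)) := by
        exact_mod_cast h3
      have h5 : (0 : ℤ) ≤ max (40 * |(ShghJ.T (δ + 1) : ℤ) - ShghJ.TT (0 + S)|)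
        (2 * ((0 : ℕ) : ℤ)) := le_max_of_le_right (by simp)
      linarith))
  rw [zero_add] at h3
  rw [h1, h2, h3]
  omega

theorem almost_all : Tendsto (fun N : ℕ => ((vectors N ∩ {S | Good.{u} S}).ncard : ℝ) /
    ((vectors N).ncard : ℝ)) atTop (nhds 1) := by
  classical
  have hpos : ∀ N, (0 : ℝ) < (ShghI.AF N).card := by
    intro N
    have : (0 : Multiset ℕ) ∈ ShghI.AF N := ShghI.mem_AF.2 ⟨by simp, by simp [ShghJ.TT]⟩
    exact_mod_cast Finset.card_pos.2 ⟨_, this⟩
  rw [Metric.tendsto_atTop]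
  intro ε hε
  obtain ⟨N₀, hN₀⟩ := ShghI.dens (ε / 2) (by positivity)
  refine ⟨N₀, fun N hN => ?_⟩
  have h1 := hN₀ N hN
  set B := (ShghI.AF N).filter (fun S => ∃ m ∈ S, 2 ≤ m ∧
    ShghJ.TT (S.filter (fun x => x < m)) < 255 * m ^ 2) with hB
  have h2 : vectors N ∩ {S | Good.{u} S} = ((ShghI.AF N).filter (fun S => Good.{u} S) : Set _) := by
    rw [vectors_eq]
    ext S
    simp
  have h3 : (ShghI.AF N).card ≤ ((ShghI.AF N).filter (fun S => Good.{u} S)).card + B.card := by
    rw [← Finset.card_filter_add_card_filter_not (s := ShghI.AF N) (fun S => Good.{u} S)]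
    refine Nat.add_le_add_left (Finset.card_le_card fun S hS => ?_) _
    rw [Finset.mem_filter] at hS
    rw [hB, Finset.mem_filter]
    refine ⟨hS.1, ?_⟩
    by_contra h
    refine hS.2 (good_of fun m hm h2 => ?_)
    by_contra h3
    exact h ⟨m, hm, h2, by omega⟩
  have h4 : ((ShghI.AF N).filter (fun S => Good.{u} S)).card ≤ (ShghI.AF N).card :=
    Finset.card_le_card (Finset.filter_subset _ _)
  have h3' : ((ShghI.AF N).card : ℝ) ≤
      ((ShghI.AF N).filter (fun S => Good.{u} S)).card + B.card := by exact_mod_cast h3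
  have h4' : (((ShghI.AF N).filter (fun S => Good.{u} S)).card : ℝ) ≤ (ShghI.AF N).card := by
    exact_mod_cast h4
  rw [h2, Set.ncard_coe_finset, vectors_eq, Set.ncard_coe_finset, Real.dist_eq, abs_lt]
  have hp := hpos N
  constructor
  · rw [lt_sub_iff_add_lt, lt_div_iff₀ hp]
    nlinarith
  · have : (((ShghI.AF N).filter (fun S => Good.{u} S)).card : ℝ) / (ShghI.AF N).card ≤ 1 := by
      rw [div_le_one hp]
      exact h4'
    linarith

theorem vectors_finite (N : ℕ) : (vectors N).Finite := by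
  rw [vectors_eq]
  exact Finset.finite_toSet _

theorem vectors_ncard_pos (N : ℕ) : 0 < (vectors N).ncard := by
  rw [Set.ncard_pos (vectors_finite N)]
  exact ⟨0, by simp [vectors]⟩

theorem nonSpecial_of {δ : ℕ} {S : Multiset ℕ} (hS : S ∈ vectors ((δ + 2).choose 2))
    (hG : Good.{u} S) : NonSpecial.{u} δ S := by
  intro k _ _ s P μ hP hμ
  rw [hG k s P μ hP hμ δ, max_eq_right]
  have h1 := hS.2
  rw [← hμ, Multiset.map_map] at h1
  have h2 : (∑ i, ((μ i + 1).choose 2 : ℤ)) ≤ ((δ + 2).choose 2 : ℤ) := by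
    exact_mod_cast h1
  rw [chi]
  linarith

/-- Almost all vectors are good: (i) the proportion of the good vectors among all the vectors with
`Σ m_i (m_i + 1) / 2 ≤ N` tends to `1` as `N → ∞`. (ii) The proportion of the non-special classes
among all classes of degree `d` with `χ ≥ 0` (up to permutation of the points) tends to `1` as
`d → ∞`. -/
theorem result :
    Tendsto (fun N : ℕ => ((vectors N ∩ {S | Good.{u} S}).ncard : ℝ) /
      ((vectors N).ncard : ℝ)) atTop (nhds 1) ∧
    Tendsto (fun d : ℕ =>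
      ((vectors ((d + 2).choose 2) ∩ {S | NonSpecial.{u} d S}).ncard : ℝ) /
      ((vectors ((d + 2).choose 2)).ncard : ℝ)) atTop (nhds 1) := by
  refine ⟨almost_all, ?_⟩
  have h1 : Tendsto (fun d : ℕ => (d + 2).choose 2) atTop atTop := by
    refine tendsto_atTop_mono (fun d => ?_) tendsto_id
    rw [Nat.choose_two_right]
    rw [Nat.le_div_iff_mul_le (by norm_num), id_eq]
    have : d + 2 - 1 = d + 1 := by omega
    rw [this]
    nlinarith
  have h2 := almost_all.{u}.comp h1
  refine tendsto_of_tendsto_of_tendsto_of_le_of_le h2 tendsto_const_nhds (fun d => ?_)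
    (fun d => ?_)
  · have h3 : vectors ((d + 2).choose 2) ∩ {S | Good.{u} S} ⊆
        vectors ((d + 2).choose 2) ∩ {S | NonSpecial.{u} d S} :=
      fun S hS => ⟨hS.1, nonSpecial_of hS.1 hS.2⟩
    have h4 := Set.ncard_le_ncard h3 ((vectors_finite _).subset Set.inter_subset_left)
    exact div_le_div_of_nonneg_right (Nat.cast_le.2 h4) (Nat.cast_nonneg _)
  · have h3 := Set.ncard_le_ncard (Set.inter_subset_left :
      vectors ((d + 2).choose 2) ∩ {S | NonSpecial.{u} d S} ⊆ _) (vectors_finite _)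
    exact div_le_one_of_le₀ (Nat.cast_le.2 h3) (Nat.cast_nonneg _)

end Pool.Agent.Results.MP_0dccba_ag.AlmostAllVectors
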