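import Pool.Agent.ShghPS.MainA
import Pool.Agent.ShghPS.FinB
import Pool.Agent.ShghPE.MainE
import Pool.Agent.ShghJ.Tr

/-!
# Equal multiplicities: linear systems `(δ; m, ..., m)` through `s` generic points

`P 0, ..., P (s - 1)` are points of the affine plane over a field `k` of characteristic `0` whose
`2 s` coordinates are algebraically independent over the prime field. We consider curves of degree
`δ` with multiplicity `≥ m` at every `P i`, that is, the divisor class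
`D = δ H - m (E_1 + ... + E_s)` on the blow-up.
-/

namespace Pool.Agent.Results.MP_0dccba_ag.EqualMultiplicities

open MvPolynomial

/-- `H⁰(X, D)`: the polynomials of degree `≤ δ` with multiplicity `≥ m` at every point `P i`. -/
def sections {k : Type*} [Field k] {s : ℕ} (P : Fin s → Fin 2 → k) (δ m : ℕ) :
    Submodule k (MvPolynomial (Fin 2) k) where
  carrier := {f | f.totalDegree ≤ δ ∧ ∀ i, f ∈ (Ideal.span {X 0 - C (P i 0), X 1 - C (P i 1)} :
    Ideal (MvPolynomial (Fin 2) k)) ^ m}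
  add_mem' := fun {f g} hf hg => ⟨(totalDegree_add f g).trans (max_le hf.1 hg.1),
    fun i => Ideal.add_mem _ (hf.2 i) (hg.2 i)⟩
  zero_mem' := ⟨by simp, fun i => Ideal.zero_mem _⟩
  smul_mem' := fun c f hf => ⟨(totalDegree_smul_le c f).trans hf.1, fun i => by
    rw [smul_eq_C_mul]
    exact Ideal.mul_mem_left _ _ (hf.2 i)⟩

/-- The Euler characteristic `χ(D) = (δ + 1)(δ + 2) / 2 - s m (m + 1) / 2`. -/
def chi (s δ m : ℕ) : ℤ :=
  ((δ + 2).choose 2 : ℤ) - s * ((m + 1).choose 2 : ℤ)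

theorem sections_eq {k : Type*} [Field k] {s : ℕ} (P : Fin s → Fin 2 → k) (δ m : ℕ) :
    sections P δ m = ShghT.LS δ (fun _ => m) P := rfl

/-- Let `m ≥ 1` and `s ≥ 30 m`, or `s³ ≥ 10¹¹ m²`, or `s ≥ 10¹⁴ + 10⁸` and
either `s⁵ ≥ 10²⁰ m²`, or (for any `m`) `N³ |χ(D)| ≥ 2·10⁶ m² + N⁵ m`, `N² ≤ s < (N + 1)²`, or, for some
natural number `n`, `s ≥ (n + 2) ^ (10⁵ (n + 1)²)` and either `m ≤ sⁿ` or `m² ≤ sⁿ |χ(D)|`.
Then `h⁰(D) = max (0, χ(D))`. -/
theorem result {k : Type*} [Field k] [CharZero k] {s : ℕ} (P : Fin s → Fin 2 → k)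
    (hP : AlgebraicIndependent (⊥ : Subfield k) (fun ij : Fin s × Fin 2 => P ij.1 ij.2))
    (δ m : ℕ) (hm : 1 ≤ m)
    (h : 30 * m ≤ s ∨ 10 ^ 11 * m ^ 2 ≤ s ^ 3 ∨ (10 ^ 14 + 10 ^ 8 ≤ s ∧
      (10 ^ 20 * m ^ 2 ≤ s ^ 5 ∨ ∃ N : ℕ, N ^ 2 ≤ s ∧ s < (N + 1) ^ 2 ∧
        2 * 10 ^ 6 * (m : ℤ) ^ 2 + N ^ 5 * m ≤ N ^ 3 * |chi s δ m|)) ∨
      ∃ n : ℕ, (n + 2) ^ (10 ^ 5 * (n + 1) ^ 2) ≤ s ∧
        (m ≤ s ^ n ∨ (m : ℤ) ^ 2 ≤ s ^ n * |chi s δ m|)) :
    (Module.finrank k (sections P δ m) : ℤ) = max 0 (chi s δ m) := by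
  set F := (⊥ : Subfield k) with hF
  have hrep : (Finset.univ.val.map fun _ : Fin s => m) = Multiset.replicate s m := by
    simp
  have hTT : ShghJ.TT (Multiset.replicate s m) = s * ShghJ.T m := by
    simp [ShghJ.TT, Multiset.map_replicate]
  have e1 : Module.finrank k (sections P δ m) = ShghJ.hF F δ (Multiset.replicate s m) := by
    rw [sections_eq, ← hrep]
    exact ShghJ.finrank_LS_eq_hF δ (fun _ => m) P hP
  have e2 : chi s δ m = (ShghJ.T (δ + 1) : ℤ) - s * ShghJ.T m := by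
    have h1 := ShghJ.tr_chi δ (fun _ : Fin s => m)
    rw [hrep, hTT] at h1
    rw [Nat.cast_mul] at h1
    rw [← h1, chi]
    simp
  have key : ShghJ.hF F δ (Multiset.replicate s m) = ShghJ.T (δ + 1) - s * ShghJ.T m := by
    rcases h with h | h | ⟨h0, h | ⟨N, h1, h2, h3⟩⟩ | ⟨n, h0, h⟩
    · exact ShghC.mHom F δ m s hm h
    · exact ShghK.mHom23 F δ m s hm h
    · exact ShghPS.mFinA F δ m s hm h0 h
    · refine ShghPS.tFinB ShghPS.mOneD ShghK.mHom23 F δ m s N hm h0 h1 h2 ?_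
      rw [e2] at h3
      exact h3
    · rw [e2] at h
      exact ShghPE.mExpl F n m s δ h0 hm h
  rw [e1, e2, key]
  omega

end Pool.Agent.Results.MP_0dccba_ag.EqualMultiplicities
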