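import Pool.Agent.ShghJ.GeoD
import Pool.Agent.ShghJ.Tr
import Pool.Agent.ShghJ.CombD5
import Pool.Agent.ShghJ.MassW
import Pool.Agent.ShghI.MainR

/-!
# The superabundance of linear systems through generic points is at most `41 M² / 20`

`P 0, ..., P (s - 1)` are points of the affine plane over a field `k` whose `2 s` coordinates are
algebraically independent over the prime field. We consider curves of degree `δ` with multiplicities
`≥ μ i` at `P i`, that is, the divisor class `D = δ H - Σ μ_i E_i` on the blow-up. The characteristic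
of `k` is `0` or larger than `δ`.
-/

namespace Pool.Agent.Results.MP_0dccba_ag.SuperabundanceBound

open MvPolynomial

/-- `H⁰(X, D)`: the polynomials of degree `≤ δ` with multiplicity `≥ μ i` at the point `P i`. -/
def sections {k : Type*} [Field k] {s : ℕ} (P : Fin s → Fin 2 → k) (δ : ℕ) (μ : Fin s → ℕ) :
    Submodule k (MvPolynomial (Fin 2) k) where
  carrier := {f | f.totalDegree ≤ δ ∧ ∀ i, f ∈ (Ideal.span {X 0 - C (P i 0), X 1 - C (P i 1)} :
    Ideal (MvPolynomial (Fin 2) k)) ^ μ i}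
  add_mem' := fun {f g} hf hg => ⟨(totalDegree_add f g).trans (max_le hf.1 hg.1),
    fun i => Ideal.add_mem _ (hf.2 i) (hg.2 i)⟩
  zero_mem' := ⟨by simp, fun i => Ideal.zero_mem _⟩
  smul_mem' := fun c f hf => ⟨(totalDegree_smul_le c f).trans hf.1, fun i => by
    rw [smul_eq_C_mul]
    exact Ideal.mul_mem_left _ _ (hf.2 i)⟩

/-- The Euler characteristic `χ(D) = (δ + 1)(δ + 2) / 2 - Σ μ_i (μ_i + 1) / 2`. -/
def chi {s : ℕ} (δ : ℕ) (μ : Fin s → ℕ) : ℤ :=
  ((δ + 2).choose 2 : ℤ) - ∑ i, ((μ i + 1).choose 2 : ℤ)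

/-- The multiplicities `μ i` for `i` in `A`, and `0` for the other points. -/
def on {s : ℕ} (A : Finset (Fin s)) (μ : Fin s → ℕ) : Fin s → ℕ :=
  fun i => if i ∈ A then μ i else 0

/-- The sum of `μ_j (μ_j + 1) / 2` over all `j` with `μ_j < m`. -/
def mass {s : ℕ} (μ : Fin s → ℕ) (m : ℕ) : ℕ :=
  ∑ j with μ j < m, (μ j + 1).choose 2

theorem sections_eq {k : Type*} [Field k] {s : ℕ} (P : Fin s → Fin 2 → k) (δ : ℕ)
    (μ : Fin s → ℕ) : sections P δ μ = ShghT.LS δ μ P := rfl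

theorem val_split {s : ℕ} (A : Finset (Fin s)) (μ : Fin s → ℕ) :
    Finset.univ.val.map μ = A.val.map μ + (Finset.univ \ A).val.map μ := by
  classical
  have h1 : (Finset.univ : Finset (Fin s)).val = A.val + (Finset.univ \ A).val := by
    have : (Finset.univ : Finset (Fin s)) =
        A.disjUnion (Finset.univ \ A) Finset.disjoint_sdiff := by
      rw [Finset.disjUnion_eq_union, Finset.union_sdiff_of_subset (Finset.subset_univ A)]
    conv_lhs => rw [this]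
    rfl
  rw [h1, Multiset.map_add]

theorem mass_eq {s : ℕ} (μ : Fin s → ℕ) (m : ℕ) :
    mass μ m = ShghJ.TT ((Finset.univ.val.map μ).filter (fun j => j < m)) := by
  have h1 : (Finset.univ.val.map μ).filter (fun j => j < m) =
      (Finset.univ.filter (fun j => μ j < m)).val.map μ := by
    rw [Multiset.filter_map]
    rfl
  rw [h1, ShghJ.tr_TT]
  rfl

theorem close {r x : ℕ} {χ B : ℤ} {t : ℤ} (ht : 0 < t)
    (h1 : 1 ≤ r → t * ((r : ℤ) - χ) ≤ B) (h2 : (x : ℤ) ≤ t * χ → (r : ℤ) = χ)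
    (hB : 0 ≤ B) (h : (x : ℤ) ≤ t * χ ∨ B ≤ -(t * χ)) : (r : ℤ) = max 0 χ := by
  rcases h with h | h
  · have h3 := h2 h
    have h4 : 0 ≤ χ := by rw [← h3]; positivity
    rw [max_eq_right h4, h3]
  · have h5 : χ ≤ 0 := by
      by_contra hc
      have : 0 < t * χ := mul_pos ht (by omega)
      omega
    rw [max_eq_left h5]
    by_contra hne
    have h6 : 1 ≤ r := by omega
    have h7 := h1 h6
    have h8 : t * ((r : ℤ) - χ) = t * r - t * χ := by ring
    have h9 : 0 < t * (r : ℤ) := mul_pos ht (by omega)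
    omega

theorem sum_ineq {s : ℕ} (δ M : ℕ) (μ : Fin s → ℕ) (hM : ∀ i, μ i ≤ M)
    (h1 : δ ^ 2 ≤ ∑ i, μ i ^ 2) :
    (δ : ℤ) ^ 2 ≤ M * (-(2 * chi δ μ) + 3 * δ + 2) := by
  have h2 : ∑ i, (μ i : ℤ) ^ 2 ≤ M * ∑ i, (μ i : ℤ) := by
    rw [Finset.mul_sum]
    refine Finset.sum_le_sum fun i _ => ?_
    have h3 : (μ i : ℤ) ≤ M := by exact_mod_cast hM i
    nlinarith [(Nat.cast_nonneg (μ i) : (0 : ℤ) ≤ μ i)]
  have h4 : (δ : ℤ) ^ 2 ≤ ∑ i, (μ i : ℤ) ^ 2 := by exact_mod_cast h1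
  have h5 : ∀ n : ℕ, 2 * (((n + 1).choose 2 : ℕ) : ℤ) = (n : ℤ) ^ 2 + n := by
    intro n
    have h6 : 2 * (n + 1).choose 2 = n ^ 2 + n := by
      have := Nat.choose_two_right (n + 1)
      have h7 : (n + 1) * (n + 1 - 1) % 2 = 0 := by
        rw [Nat.add_sub_cancel]
        have := Nat.even_mul_succ_self n
        rw [mul_comm] at this
        exact Nat.even_iff.1 this
      rw [this]
      have h8 : (n + 1) * (n + 1 - 1) = n ^ 2 + n := by rw [Nat.add_sub_cancel]; ring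
      rw [h8] at h7 ⊢
      omega
    exact_mod_cast h6
  have h6 : 2 * chi δ μ = (δ : ℤ) ^ 2 + 3 * δ + 2 - (∑ i, (μ i : ℤ) ^ 2 + ∑ i, (μ i : ℤ)) := by
    unfold chi
    rw [mul_sub, Finset.mul_sum, h5 (δ + 1), ← Finset.sum_add_distrib,
      Finset.sum_congr rfl fun i _ => h5 (μ i)]
    push_cast
    ring
  have h7 : ∑ i, (μ i : ℤ) ≤ -(2 * chi δ μ) + 3 * δ + 2 := by linarith
  have h8 : (M : ℤ) * ∑ i, (μ i : ℤ) ≤ M * (-(2 * chi δ μ) + 3 * δ + 2) :=
    mul_le_mul_of_nonneg_left h7 (Nat.cast_nonneg M)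
  linarith

/-- Let `A` be a set of points and `σ` the sum of their multiplicities, and let all other
multiplicities be at most `M`. `h⁰ = dim H⁰(D)`, `χ = χ(D)`.
(1) If `σ ≤ δ + 1` (for example `A = ∅`, `σ = 0`), then `h⁰ - χ ≤ M (123 M + 40 σ) / 60` when
`H⁰(D) ≠ 0`, and `h⁰ = max (0, χ)` when `χ ≥ M (108 M + 40 σ) / 30` or
`-χ ≥ M (123 M + 40 σ) / 60`.
(2) If `2 σ ≤ δ + 2`, then `h⁰ - χ ≤ 6 M²` when `H⁰(D) ≠ 0`, and `h⁰ = max (0, χ)` when
`χ ≥ 23 M² / 2` or `-χ ≥ 6 M²`.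
(3) If the class `D_A = δ H - Σ_(i ∈ A) μ_i E_i` has `h⁰(D_A) = χ(D_A)` and
`2 χ(D_A) ≥ 3 c (δ + 1)` where `c (c + 1) + 1 ≥ 3 M δ`, then `h⁰ - χ ≤ 41 M² / 20` when
`H⁰(D) ≠ 0`, and `h⁰ = max (0, χ)` when `χ ≥ 18 M² / 5` or `-χ ≥ 41 M² / 20`.
(4) If `A = ∅`, `M ≥ 1`, `D² ≤ 0` and `10 δ² ≥ 41 M³ + 30 M δ + 20 M`, then `H⁰(D) = 0`.
(5) If `62 μ_i² ≤ x + ` (sum of `μ_j (μ_j + 1) / 2` over all `j` with `μ_j < μ_i`) for all `i` with
`μ_i ≥ 2`, then `h⁰ - χ ≤ x / 13` when `H⁰(D) ≠ 0`, and `h⁰ = max (0, χ)` when `χ ≥ x / 8` or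
`-χ ≥ x / 13`. -/
theorem result {k : Type*} [Field k] {s : ℕ} (P : Fin s → Fin 2 → k)
    (hP : AlgebraicIndependent (⊥ : Subfield k) (fun ij : Fin s × Fin 2 => P ij.1 ij.2))
    (δ : ℕ) (hchar : ∀ n : ℕ, 1 ≤ n → n ≤ δ → (n : k) ≠ 0) (μ : Fin s → ℕ) (M : ℕ)
    (A : Finset (Fin s)) (hM : ∀ i, i ∉ A → μ i ≤ M) :
    (∑ i ∈ A, μ i ≤ δ + 1 →
      (sections P δ μ ≠ ⊥ → 60 * ((Module.finrank k (sections P δ μ) : ℤ) - chi δ μ) ≤
        M * (123 * M + 40 * ∑ i ∈ A, (μ i : ℤ))) ∧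
      ((M : ℤ) * (108 * M + 40 * ∑ i ∈ A, (μ i : ℤ)) ≤ 30 * chi δ μ ∨
        (M : ℤ) * (123 * M + 40 * ∑ i ∈ A, (μ i : ℤ)) ≤ -(60 * chi δ μ) →
        (Module.finrank k (sections P δ μ) : ℤ) = max 0 (chi δ μ))) ∧
    (2 * ∑ i ∈ A, μ i ≤ δ + 2 →
      (sections P δ μ ≠ ⊥ →
        (Module.finrank k (sections P δ μ) : ℤ) - chi δ μ ≤ 6 * (M : ℤ) ^ 2) ∧
      (23 * (M : ℤ) ^ 2 ≤ 2 * chi δ μ ∨ 6 * (M : ℤ) ^ 2 ≤ -chi δ μ →
        (Module.finrank k (sections P δ μ) : ℤ) = max 0 (chi δ μ))) ∧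
    (∀ c : ℕ, 3 * M * δ ≤ c * (c + 1) + 1 →
      (Module.finrank k (sections P δ (on A μ)) : ℤ) = chi δ (on A μ) →
      3 * (c : ℤ) * (δ + 1) ≤ 2 * chi δ (on A μ) →
      (sections P δ μ ≠ ⊥ →
        20 * ((Module.finrank k (sections P δ μ) : ℤ) - chi δ μ) ≤ 41 * (M : ℤ) ^ 2) ∧
      (18 * (M : ℤ) ^ 2 ≤ 5 * chi δ μ ∨ 41 * (M : ℤ) ^ 2 ≤ -(20 * chi δ μ) →
        (Module.finrank k (sections P δ μ) : ℤ) = max 0 (chi δ μ))) ∧
    (A = ∅ → 1 ≤ M → δ ^ 2 ≤ ∑ i, μ i ^ 2 → 41 * M ^ 3 + 30 * M * δ + 20 * M ≤ 10 * δ ^ 2 →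
      sections P δ μ = ⊥) ∧
    (∀ x : ℕ, (∀ i, 2 ≤ μ i → 62 * μ i ^ 2 ≤ x + mass μ (μ i)) →
      (sections P δ μ ≠ ⊥ →
        13 * ((Module.finrank k (sections P δ μ) : ℤ) - chi δ μ) ≤ x) ∧
      ((x : ℤ) ≤ 8 * chi δ μ ∨ (x : ℤ) ≤ -(13 * chi δ μ) →
        (Module.finrank k (sections P δ μ) : ℤ) = max 0 (chi δ μ))) := by
  classical
  have hF0 := ShghJ.tr_char hchar
  have HD := ShghJ.hfunD_hF (⊥ : Subfield k) δ hF0
  set F := (⊥ : Subfield k) with hF
  set W : Multiset ℕ := A.val.map μ with hW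
  set S : Multiset ℕ := (Finset.univ \ A).val.map μ with hS
  have hsp : Finset.univ.val.map μ = W + S := val_split A μ
  have hWs : W.sum = ∑ i ∈ A, μ i := rfl
  have hWz : ((W.sum : ℕ) : ℤ) = ∑ i ∈ A, (μ i : ℤ) := by
    rw [hWs]
    push_cast
    rfl
  have hSM : ∀ x ∈ S, x ≤ M := by
    intro x hx
    obtain ⟨i, hi, rfl⟩ := Multiset.mem_map.1 hx
    have hi' : i ∈ Finset.univ \ A := hi
    exact hM i (Finset.mem_sdiff.1 hi').2
  have e1 : Module.finrank k (sections P δ μ) = ShghJ.hF F δ (W + S) := by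
    rw [sections_eq, ← hsp]
    exact ShghJ.finrank_LS_eq_hF δ μ P hP
  have e2 : chi δ μ = (ShghJ.T (δ + 1) : ℤ) - ShghJ.TT (W + S) := by
    rw [← hsp]
    exact ShghJ.tr_chi δ μ
  have e3 : Module.finrank k (sections P δ (on A μ)) = ShghJ.hF F δ W := by
    rw [sections_eq, hW]
    exact ShghJ.tr_hF_ite δ HD.toHFun μ P hP A
  have e4 : chi δ (on A μ) = (ShghJ.T (δ + 1) : ℤ) - ShghJ.TT W := by
    have h0 : ShghJ.TT (Multiset.replicate (Finset.univ \ A).card 0) = 0 := by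
      rw [ShghJ.TT, Multiset.map_replicate, Multiset.sum_replicate]
      simp [ShghJ.T]
    have h1 := ShghJ.tr_chi δ (on A μ)
    unfold on at h1 ⊢
    rw [ShghJ.tr_ite Finset.univ A (Finset.subset_univ A), ShghJ.TT_add, h0, zero_add] at h1
    exact h1
  have hfin : sections P δ μ ≠ ⊥ → 1 ≤ Module.finrank k (sections P δ μ) := by
    intro h
    haveI : Module.Finite k (sections P δ μ) := by
      rw [sections_eq]
      exact ShghT.finite_LS δ μ P
    exact Submodule.one_le_finrank_iff.2 h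
  have part1 : ∑ i ∈ A, μ i ≤ δ + 1 →
      (sections P δ μ ≠ ⊥ → 60 * ((Module.finrank k (sections P δ μ) : ℤ) - chi δ μ) ≤
        M * (123 * M + 40 * ∑ i ∈ A, (μ i : ℤ))) ∧
      ((M : ℤ) * (108 * M + 40 * ∑ i ∈ A, (μ i : ℤ)) ≤ 30 * chi δ μ ∨
        (M : ℤ) * (123 * M + 40 * ∑ i ∈ A, (μ i : ℤ)) ≤ -(60 * chi δ μ) →
        (Module.finrank k (sections P δ μ) : ℤ) = max 0 (chi δ μ)) := by
    intro hσ
    rw [← hWs] at hσ
    obtain ⟨h1, h2⟩ := ShghJ.winD δ (ShghJ.hF F δ) HD M W S hσ hSM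
    have h1' : 1 ≤ ShghJ.hF F δ (W + S) → 60 * ((ShghJ.hF F δ (W + S) : ℤ) - chi δ μ) ≤
        M * (123 * M + 40 * ∑ i ∈ A, (μ i : ℤ)) := by
      intro h3
      have h4 := h1 h3
      rw [e2, ← hWz]
      have h5 : (60 * (ShghJ.hF F δ (W + S) + ShghJ.TT (W + S)) : ℤ) ≤
          M * (123 * M + 40 * (W.sum : ℕ)) + 60 * ShghJ.T (δ + 1) := by exact_mod_cast h4
      linarith
    refine ⟨fun hne => ?_, fun h => ?_⟩
    · have h3 := hfin hne
      rw [e1] at h3 ⊢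
      exact h1' h3
    · rw [e1]
      have hS0 : (0 : ℤ) ≤ ∑ i ∈ A, (μ i : ℤ) := Finset.sum_nonneg fun i _ => Nat.cast_nonneg _
      refine close (x := M * (216 * M + 80 * ∑ i ∈ A, μ i)) (t := 60) (by norm_num) h1' ?_
        (by positivity) ?_
      · intro h3
        push_cast at h3
        have h4 : (M : ℤ) * (108 * M + 40 * (W.sum : ℕ)) ≤
            30 * ((ShghJ.T (δ + 1) : ℤ) - ShghJ.TT (W + S)) := by
          rw [← e2, hWz]
          linarith
        have h5 := h2 h4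
        have h6 : ((ShghJ.hF F δ (W + S) : ℤ) + ShghJ.TT (W + S)) = ShghJ.T (δ + 1) := by
          exact_mod_cast h5
        rw [e2]
        linarith
      · rcases h with h | h
        · left
          push_cast
          linarith
        · exact Or.inr h
  refine ⟨part1, ?_, ?_, ?_, ?_⟩
  · intro hσ
    rw [← hWs] at hσ
    obtain ⟨h1, h2⟩ := ShghJ.winBaseD δ (ShghJ.hF F δ) HD M W S hσ hSM
    have h1' : 1 ≤ ShghJ.hF F δ (W + S) → 2 * ((ShghJ.hF F δ (W + S) : ℤ) - chi δ μ) ≤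
        12 * (M : ℤ) ^ 2 := by
      intro h3
      have h4 := h1 h3
      rw [e2]
      have h5 : (ShghJ.hF F δ (W + S) + ShghJ.TT (W + S) : ℤ) ≤
          6 * (M : ℤ) ^ 2 + ShghJ.T (δ + 1) := by exact_mod_cast h4
      linarith
    refine ⟨fun hne => ?_, fun h => ?_⟩
    · have h3 := hfin hne
      rw [e1] at h3 ⊢
      have := h1' h3
      linarith
    · rw [e1]
      refine close (x := 23 * M ^ 2) (t := 2) (by norm_num) h1' ?_ (by positivity) ?_
      · intro h3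
        push_cast at h3
        rw [e2] at h3
        have h5 := h2 h3
        have h6 : ((ShghJ.hF F δ (W + S) : ℤ) + ShghJ.TT (W + S)) = ShghJ.T (δ + 1) := by
          exact_mod_cast h5
        rw [e2]
        linarith
      · rcases h with h | h
        · left
          push_cast
          exact h
        · right
          linarith
  · intro c hc hK hroom
    rw [e3, e4] at hK
    rw [e4] at hroom
    have hK' : ShghJ.hF F δ W + ShghJ.TT W = ShghJ.T (δ + 1) := by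
      have : (ShghJ.hF F δ W : ℤ) + ShghJ.TT W = ShghJ.T (δ + 1) := by linarith
      exact_mod_cast this
    have hroom' : 2 * ShghJ.TT W + 3 * c * (δ + 1) ≤ 2 * ShghJ.T (δ + 1) := by
      have : 2 * (ShghJ.TT W : ℤ) + 3 * c * (δ + 1) ≤ 2 * ShghJ.T (δ + 1) := by linarith
      exact_mod_cast this
    obtain ⟨h1, h2⟩ := ShghI.hF_rel_window F δ hF0 M c W S hK' hroom' hc hSM
    have h1' : 1 ≤ ShghJ.hF F δ (W + S) → 20 * ((ShghJ.hF F δ (W + S) : ℤ) - chi δ μ) ≤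
        41 * (M : ℤ) ^ 2 := by
      intro h3
      have h4 := h1 h3
      rw [e2]
      have h5 : 20 * (ShghJ.hF F δ (W + S) + ShghJ.TT (W + S) : ℤ) ≤
          41 * (M : ℤ) ^ 2 + 20 * ShghJ.T (δ + 1) := by exact_mod_cast h4
      linarith
    refine ⟨fun hne => ?_, fun h => ?_⟩
    · have h3 := hfin hne
      rw [e1] at h3 ⊢
      exact h1' h3
    · rw [e1]
      refine close (x := 72 * M ^ 2) (t := 20) (by norm_num) h1' ?_ (by positivity) ?_
      · intro h3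
        push_cast at h3
        rw [e2] at h3
        have h5 := h2 (by linarith)
        have h6 : ((ShghJ.hF F δ (W + S) : ℤ) + ShghJ.TT (W + S)) = ShghJ.T (δ + 1) := by
          exact_mod_cast h5
        rw [e2]
        linarith
      · rcases h with h | h
        · left
          push_cast
          linarith
        · exact Or.inr h
  · intro hA hM1 hsq hδ
    by_contra hne
    have hMall : ∀ i, μ i ≤ M := fun i => hM i (by rw [hA]; exact Finset.notMem_empty i)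
    have h0 : ∑ i ∈ A, μ i ≤ δ + 1 := by rw [hA]; simp
    have h1 := (part1 h0).1 hne
    have h2 := hfin hne
    have h3 := sum_ineq δ M μ hMall hsq
    have h4 : ∑ i ∈ A, (μ i : ℤ) = 0 := by rw [hA]; simp
    rw [h4] at h1
    have h5 : (41 * (M : ℤ) ^ 3 + 30 * M * δ + 20 * M) ≤ 10 * (δ : ℤ) ^ 2 := by exact_mod_cast hδ
    have h6 : (1 : ℤ) ≤ Module.finrank k (sections P δ μ) := by exact_mod_cast h2
    have h7 : (1 : ℤ) ≤ M := by exact_mod_cast hM1
    have h8 : (41 * (M : ℤ) ^ 2) * M ≤ (-(20 * chi δ μ)) * M := by nlinarith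
    have h9 : 41 * (M : ℤ) ^ 2 ≤ -(20 * chi δ μ) := le_of_mul_le_mul_right h8 (by linarith)
    nlinarith
  · intro x hx
    obtain ⟨h1, h2⟩ := HD.massWin x (W + S) (by
      rw [← hsp]
      intro m hm h2
      obtain ⟨i, _, rfl⟩ := Multiset.mem_map.1 hm
      have h3 := hx i h2
      rw [mass_eq] at h3
      exact h3)
    have h1' : 1 ≤ ShghJ.hF F δ (W + S) → 13 * ((ShghJ.hF F δ (W + S) : ℤ) - chi δ μ) ≤ x := by
      intro h3
      have h4 := h1 h3
      rw [e2]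
      have h5 : 13 * (ShghJ.hF F δ (W + S) + ShghJ.TT (W + S) : ℤ) ≤
          x + 13 * ShghJ.T (δ + 1) := by exact_mod_cast h4
      linarith
    refine ⟨fun hne => ?_, fun h => ?_⟩
    · have h3 := hfin hne
      rw [e1] at h3 ⊢
      exact h1' h3
    · rw [e1]
      have hx0 : (0 : ℤ) ≤ x := Nat.cast_nonneg x
      refine close (x := 13 * x) (t := 13 * 8) (B := 8 * x) (by norm_num) ?_ ?_ (by positivity) ?_
      · intro h3
        have := h1' h3
        linarith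
      · intro h3
        push_cast at h3
        rw [e2] at h3
        have h4 : (x : ℤ) + 8 * ShghJ.TT (W + S) ≤ 8 * ShghJ.T (δ + 1) := by linarith
        have h5 := h2 (by exact_mod_cast h4)
        have h6 : ((ShghJ.hF F δ (W + S) : ℤ) + ShghJ.TT (W + S)) = ShghJ.T (δ + 1) := by
          exact_mod_cast h5
        rw [e2]
        linarith
      · rcases h with h | h
        · left
          push_cast
          linarith
        · right
          linarith

end Pool.Agent.Results.MP_0dccba_ag.SuperabundanceBound
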