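import Pool.Agent.ShghI.MainU
import Pool.Agent.ShghC.MainG
import Pool.Agent.ShghC.RepF
import Pool.Agent.ShghC.Sq
import Pool.Agent.ShghC.RedK
import Pool.Agent.ShghC.LongK
import Pool.Agent.ShghJ.Tr
import Pool.Agent.ShghJ.CombD5

/-!
# Linear systems through generic points with `δ² ≥ 144 M³` are non-special

`P 0, ..., P (s - 1)` are points of the affine plane over a field `k` of characteristic `0` whose
`2 s` coordinates are algebraically independent over the prime field. We consider curves of degree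
`δ` with multiplicities `≥ μ i` at `P i`, that is, the divisor class `D = δ H - Σ μ_i E_i` on the
blow-up.
-/

namespace Pool.Agent.Results.MP_0dccba_ag.ThreeHalves

open MvPolynomial

/-- `H⁰(X, D)`: the polynomials of degree `≤ δ` with multiplicity `≥ μ i` at the point `P i`. -/
def sections {k : Type*} [Field k] {s : ℕ} (P : Fin s → Fin 2 → k) (δ : ℕ) (μ : Fin s → ℕ) :
    Submodule k (MvPolynomial (Fin 2) k) where
  carrier := {f | f.totalDegree ≤ δ ∧ ∀ i, f ∈ (Ideal.span {X 0 - C (P i 0), X 1 - C (P i 1)} :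
    Ideal (MvPolynomial (Fin 2) k)) ^ μ i}
  add_mem' := fun {f g} hf hg => ⟨(totalDegree_add f g).trans (max_le hf.1 hg.1),
    fun i => Ideal.add_mem _ (hf.2 i) (hg.2 i)⟩
  zero_mem' := ⟨by simp, fun i => Ideal.zero_mem _⟩
  smul_mem' := fun c f hf => ⟨(totalDegree_smul_le c f).trans hf.1, fun i => by
    rw [smul_eq_C_mul]
    exact Ideal.mul_mem_left _ _ (hf.2 i)⟩

/-- The Euler characteristic `χ(D) = (δ + 1)(δ + 2) / 2 - Σ μ_i (μ_i + 1) / 2`. -/
def chi {s : ℕ} (δ : ℕ) (μ : Fin s → ℕ) : ℤ :=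
  ((δ + 2).choose 2 : ℤ) - ∑ i, ((μ i + 1).choose 2 : ℤ)

/-- The multiplicities `μ i` for `i` in `A`, and `0` for the other points. -/
def on {s : ℕ} (A : Finset (Fin s)) (μ : Fin s → ℕ) : Fin s → ℕ :=
  fun i => if i ∈ A then μ i else 0

/-- The number of conditions imposed by the points outside of `A` of multiplicity less than `m`:
the sum of `μ_j (μ_j + 1) / 2` over these points. -/
def mass {s : ℕ} (A : Finset (Fin s)) (μ : Fin s → ℕ) (m : ℕ) : ℤ :=
  ∑ j with j ∉ A ∧ μ j < m, ((μ j + 1).choose 2 : ℤ)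

theorem sections_eq {k : Type*} [Field k] {s : ℕ} (P : Fin s → Fin 2 → k) (δ : ℕ)
    (μ : Fin s → ℕ) : sections P δ μ = ShghT.LS δ μ P := rfl

theorem val_split {s : ℕ} (A : Finset (Fin s)) (μ : Fin s → ℕ) :
    Finset.univ.val.map μ = A.val.map μ + (Finset.univ \ A).val.map μ := by
  classical
  have h1 : (Finset.univ : Finset (Fin s)).val = A.val + (Finset.univ \ A).val := by
    have : (Finset.univ : Finset (Fin s)) =
        A.disjUnion (Finset.univ \ A) Finset.disjoint_sdiff := by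
      rw [Finset.disjUnion_eq_union, Finset.union_sdiff_of_subset (Finset.subset_univ A)]
    conv_lhs => rw [this]
    rfl
  rw [h1, Multiset.map_add]

theorem mass_eq {s : ℕ} (A : Finset (Fin s)) (μ : Fin s → ℕ) (m : ℕ) :
    mass A μ m = (ShghJ.TT (((Finset.univ \ A).val.map μ).filter (fun j => j < m)) : ℤ) := by
  classical
  have h1 : ((Finset.univ \ A).val.map μ).filter (fun j => j < m) =
      (Finset.univ.filter (fun j => j ∉ A ∧ μ j < m)).val.map μ := by
    rw [Multiset.filter_map]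
    congr 1
    have h2 : (Finset.univ.filter (fun j : Fin s => j ∉ A ∧ μ j < m)) =
        (Finset.univ \ A).filter (fun j => μ j < m) := by
      ext j
      simp
    rw [h2]
    rfl
  rw [h1, ShghJ.tr_TT]
  unfold mass
  push_cast
  rfl

/-- Let `A` be a set of points and let all other multiplicities be at most `M`, `M ≥ 1`. Suppose that
(a) `A = ∅`, and `144 M³ ≤ δ²` or `144 M³ ≤ Σ μ_i²` or at least `30 M` points have multiplicity `M`,
or
(b) `2 σ + 12 M ≤ δ` and `288 M³ ≤ δ (δ - 2 σ)`, `σ` the sum of the multiplicities in `A`, or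
(c) there are `a, c ≥ 1` and `δ'` such that
either `(6 M + 3) a ≤ δ`, `38 M² ≤ a δ` and `δ' = δ - (3 M + 2) a`,
or `650 M a ≤ δ`, `δ' = δ - 50 M a` and
`1275 m² ≤ max (40 |χ(D)|, 3 a δ) + 5 (sum of μ_j (μ_j + 1) / 2 over all j ∉ A with μ_j < m)`
for the multiplicity `m` of every point outside of `A` with `m ≥ 2`;
and such that either `2 σ ≤ δ'`, or the class `D' = δ' H - Σ_(i ∈ A) μ_i E_i` is non-special,
`h⁰(D') = χ(D')` (for example `18 μ_i² ≤ 5 χ(D')` for all `i ∈ A`), `3 c (δ' + 1) ≤ 2 χ(D')`, and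
`3 M δ ≤ c²` (or `μ_p + c ≤ δ'` and `25 M (δ - μ_p) ≤ c²` for some `p ∈ A`).
Then `h⁰(D) = max (0, χ(D))`. -/
theorem result {k : Type*} [Field k] [CharZero k] {s : ℕ} (P : Fin s → Fin 2 → k)
    (hP : AlgebraicIndependent (⊥ : Subfield k) (fun ij : Fin s × Fin 2 => P ij.1 ij.2))
    (δ : ℕ) (μ : Fin s → ℕ) (M : ℕ) (hM1 : 1 ≤ M) (A : Finset (Fin s)) (hM : ∀ i, i ∉ A → μ i ≤ M)
    (h : (A = ∅ ∧ (144 * M ^ 3 ≤ δ ^ 2 ∨ 144 * M ^ 3 ≤ ∑ i, μ i ^ 2 ∨
        30 * M ≤ (Finset.univ.filter fun i => μ i = M).card)) ∨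
      (2 * ∑ i ∈ A, μ i + 12 * M ≤ δ ∧
        288 * (M : ℤ) ^ 3 ≤ δ * ((δ : ℤ) - 2 * ∑ i ∈ A, (μ i : ℤ))) ∨
      ∃ a c δ' : ℕ, 1 ≤ a ∧ 1 ≤ c ∧
        (((6 * M + 3) * a ≤ δ ∧ 38 * M ^ 2 ≤ a * δ ∧ δ' + (3 * M + 2) * a = δ) ∨
          (650 * M * a ≤ δ ∧ δ' + 50 * M * a = δ ∧ ∀ i, i ∉ A → 2 ≤ μ i →
            1275 * (μ i : ℤ) ^ 2 ≤ max (40 * |chi δ μ|) (3 * (a * δ)) + 5 * mass A μ (μ i))) ∧
        (2 * ∑ i ∈ A, μ i ≤ δ' ∨
          ((Module.finrank k (sections P δ' (on A μ)) : ℤ) = chi δ' (on A μ) ∨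
            ∀ i ∈ A, 18 * (μ i : ℤ) ^ 2 ≤ 5 * chi δ' (on A μ)) ∧
          3 * (c : ℤ) * (δ' + 1) ≤ 2 * chi δ' (on A μ) ∧
          (3 * M * δ ≤ c ^ 2 ∨ ∃ p ∈ A, μ p + c ≤ δ' ∧ 25 * M * (δ - μ p) ≤ c ^ 2))) :
    (Module.finrank k (sections P δ μ) : ℤ) = max 0 (chi δ μ) := by
  classical
  set F := (⊥ : Subfield k) with hF
  set W : Multiset ℕ := A.val.map μ with hW
  set S : Multiset ℕ := (Finset.univ \ A).val.map μ with hS
  have hsp : Finset.univ.val.map μ = W + S := val_split A μ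
  have hWs : W.sum = ∑ i ∈ A, μ i := rfl
  have hWz : ((W.sum : ℕ) : ℤ) = ∑ i ∈ A, (μ i : ℤ) := by
    rw [hWs]
    push_cast
    rfl
  have hSM : ∀ x ∈ S, x ≤ M := by
    intro x hx
    obtain ⟨i, hi, rfl⟩ := Multiset.mem_map.1 hx
    have hi' : i ∈ Finset.univ \ A := hi
    exact hM i (Finset.mem_sdiff.1 hi').2
  have e1 : Module.finrank k (sections P δ μ) = ShghJ.hF F δ (W + S) := by
    rw [sections_eq, ← hsp]
    exact ShghJ.finrank_LS_eq_hF δ μ P hP
  have e2 : chi δ μ = (ShghJ.T (δ + 1) : ℤ) - ShghJ.TT (W + S) := by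
    rw [← hsp]
    exact ShghJ.tr_chi δ μ
  have key : ShghJ.hF F δ (W + S) = ShghJ.T (δ + 1) - ShghJ.TT (W + S) := by
    rcases h with ⟨hA, h2⟩ | ⟨h1, h2⟩ | ⟨a, c, δ', ha, hc1, h1, h2⟩
    · have hW0 : W = 0 := by rw [hW, hA]; rfl
      have hS' : S = Finset.univ.val.map μ := by rw [hS, hA, Finset.sdiff_empty]
      rw [hW0, zero_add]
      rcases h2 with h2 | h2 | h2
      · exact ShghC.mAll F δ M S hM1 hSM h2
      · refine ShghC.tSq ShghC.mAll F δ M S hM1 hSM ?_
        rw [hS', Multiset.map_map]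
        exact h2
      · refine ShghC.tRepF ShghC.mHomC ShghC.mAll F δ M S hM1 hSM ?_
        rw [hS', Multiset.count_map]
        refine h2.trans (le_of_eq ?_)
        rw [Finset.card_def, Finset.filter_val]
        congr 1
        exact Multiset.filter_congr fun i _ => eq_comm
    · have h1' : 2 * W.sum + 12 * M ≤ δ := by rw [hWs]; exact h1
      refine ShghC.tRedK δ M (ShghJ.hF F δ)
        (ShghJ.hfun_hF F δ fun n hn _ => Nat.cast_ne_zero.2 (by omega)) hM1 W (by omega)
        (fun S' hS' h3 h4 => ShghC.tLongK ShghC.mCloseR ShghC.mStripG ShghC.tWinG F δ M W S' hM1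
          hS' h1' ?_ h3 h4) S hSM
      rw [← hWz] at h2
      have h3 : 2 * W.sum ≤ δ := by rw [hWs]; omega
      obtain ⟨r, hr⟩ := Nat.exists_eq_add_of_le h3
      have h4 : (δ : ℤ) - 2 * (W.sum : ℕ) = (r : ℕ) := by rw [hr]; push_cast; ring
      rw [h4] at h2
      have h5 : δ - 2 * W.sum = r := by omega
      rw [h5]
      exact_mod_cast h2
    · have HD := ShghJ.hfunD_hF F δ' fun n hn _ => Nat.cast_ne_zero.2 (show n ≠ 0 by omega)
      have hR : ShghI.RoomK F δ δ' M W := by
        rcases h2 with h2 | ⟨hK, hroom, hc⟩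
        · exact Or.inl (by rw [hWs]; exact h2)
        · have e3 : Module.finrank k (sections P δ' (on A μ)) = ShghJ.hF F δ' W := by
            rw [sections_eq, hW]
            exact ShghJ.tr_hF_ite δ' HD.toHFun μ P hP A
          have e4 : chi δ' (on A μ) = (ShghJ.T (δ' + 1) : ℤ) - ShghJ.TT W := by
            have h0 : ShghJ.TT (Multiset.replicate (Finset.univ \ A).card 0) = 0 := by
              rw [ShghJ.TT, Multiset.map_replicate, Multiset.sum_replicate]
              simp [ShghJ.T]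
            have h1 := ShghJ.tr_chi δ' (on A μ)
            unfold on at h1 ⊢
            rw [ShghJ.tr_ite Finset.univ A (Finset.subset_univ A), ShghJ.TT_add, h0, zero_add] at h1
            exact h1
          have hK' : ShghJ.hF F δ' W + ShghJ.TT W = ShghJ.T (δ' + 1) := by
            rcases hK with hK | hK
            · rw [e3, e4] at hK
              have : (ShghJ.hF F δ' W : ℤ) + ShghJ.TT W = ShghJ.T (δ' + 1) := by linarith
              exact_mod_cast this
            · obtain ⟨M1, h1, h2⟩ := ShghI.exists_top W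
              have h3 : 18 * (M1 : ℤ) ^ 2 ≤ 5 * chi δ' (on A μ) := by
                rcases h2 with h2 | h2
                · rw [h2]
                  have h4 : (0 : ℤ) ≤ 3 * (c : ℤ) * (δ' + 1) := by positivity
                  push_cast
                  linarith
                · obtain ⟨i, hi, hi2⟩ := Multiset.mem_map.1 h2
                  rw [← hi2]
                  exact hK i hi
              have h5 := (ShghJ.winD δ' (ShghJ.hF F δ') HD M1 0 W (by simp) h1).2
              rw [zero_add, Multiset.sum_zero] at h5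
              refine h5 ?_
              rw [e4] at h3
              push_cast
              linarith
          rw [e4] at hroom
          have hroom' : 2 * ShghJ.TT W + 3 * c * (δ' + 1) ≤ 2 * ShghJ.T (δ' + 1) := by
            have : 2 * (ShghJ.TT W : ℤ) + 3 * c * (δ' + 1) ≤ 2 * ShghJ.T (δ' + 1) := by linarith
            exact_mod_cast this
          refine Or.inr ⟨c, hc1, hK', hroom', ?_⟩
          rcases hc with hc | ⟨p, hp, h1, h2⟩
          · exact Or.inl hc
          · exact Or.inr ⟨μ p, Multiset.mem_map_of_mem μ hp, h1, h2⟩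
      rcases h1 with ⟨h1, h3, h4⟩ | ⟨h1, h3, h4⟩
      · exact ShghI.hF_long_G F δ a M δ' W S hM1 hSM ha h1 h3 h4 hR
      · refine ShghI.hF_long_U F δ a M δ' W S hM1 hSM ha h1 h3 hR ?_
        intro x hx h5
        obtain ⟨i, hi, rfl⟩ := Multiset.mem_map.1 hx
        have hi' : i ∈ Finset.univ \ A := hi
        have h6 := h4 i (Finset.mem_sdiff.1 hi').2 h5
        rw [mass_eq, e2] at h6
        exact h6
  rw [e1, e2, key]
  omega

end Pool.Agent.Results.MP_0dccba_ag.ThreeHalves
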